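import Pool.Agent.Q7.LS.Stm

set_option autoImplicit false

/-!
Project LS, job OUT: relations between elements of `NS L S` and relations of a basis.
-/

namespace Pool.Agent.Q94.LS

open NumberField IsDedekindDomain Filter Topology Finset
open Pool.Agent.Q7.LK Pool.Agent.Q7.LS

/-- integral vectors which are independent over the integers are independent over the `p`-adic
integers -/
theorem indep_padic (p : ℕ) [Fact p.Prime] {n' n : ℕ} (C : Fin n' → Fin n → ℤ)
    (hC : ∀ e : Fin n' → ℤ, (∀ k, ∑ i, e i * C i k = 0) → e = 0) (b : Fin n' → ℤ_[p])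
    (hb : ∀ k, ∑ i, b i * ((C i k : ℤ) : ℤ_[p]) = 0) : b = 0 := by
  classical
  have h1 : LinearIndependent ℤ (fun (i : Fin n') (k : Fin n) => ((C i k : ℤ) : ℚ)) := by
    rw [Fintype.linearIndependent_iff]
    intro e he
    have h2 : e = 0 := by
      refine hC e fun k => ?_
      have h3 := congrFun he k
      rw [Finset.sum_apply] at h3
      have h4 : ((∑ i, e i * C i k : ℤ) : ℚ) = 0 := by
        rw [Int.cast_sum]
        refine Eq.trans (Finset.sum_congr rfl fun i _ => ?_) h3
        rw [Int.cast_mul, Pi.smul_apply, zsmul_eq_mul]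
      exact_mod_cast h4
    intro i
    rw [h2]
    rfl
  have h2 : LinearIndependent ℚ (fun (i : Fin n') (k : Fin n) => ((C i k : ℤ) : ℚ)) :=
    (LinearIndependent.iff_fractionRing ℤ ℚ).1 h1
  set CQ : Matrix (Fin n') (Fin n) ℚ := fun i k => ((C i k : ℤ) : ℚ) with hCQ
  have h3 : Function.Injective CQ.vecMul := by
    rw [Matrix.vecMul_injective_iff]
    exact h2
  have h3' : Function.Injective (Matrix.vecMulLinear CQ) := h3
  obtain ⟨g, hg⟩ := LinearMap.exists_leftInverse_of_injective (Matrix.vecMulLinear CQ)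
    (LinearMap.ker_eq_bot.2 h3')
  have h4 : ∀ i l : Fin n', ∑ k, CQ i k * g (Pi.single k 1) l = if i = l then 1 else 0 := by
    intro i l
    have h5 := LinearMap.congr_fun hg (Pi.single i 1)
    have h6 : Matrix.vecMulLinear CQ (Pi.single i 1) = CQ i := by
      rw [Matrix.vecMulLinear_apply, Matrix.single_one_vecMul]
      rfl
    rw [LinearMap.comp_apply, h6, LinearMap.id_apply] at h5
    have h7 : CQ i = ∑ k, CQ i k • (Pi.single k (1 : ℚ) : Fin n → ℚ) := by
      ext k
      rw [Finset.sum_apply]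
      simp [Pi.single_apply]
    rw [h7, map_sum] at h5
    have h8 := congrFun h5 l
    rw [Finset.sum_apply] at h8
    have h9 : ∀ k, g (CQ i k • (Pi.single k (1 : ℚ) : Fin n → ℚ)) l =
        CQ i k * g (Pi.single k 1) l := fun k => by
      rw [map_smul, Pi.smul_apply, smul_eq_mul]
    rw [Finset.sum_congr rfl fun k _ => h9 k, Pi.single_apply] at h8
    rw [h8]
    by_cases h : i = l
    · rw [if_pos h, if_pos h.symm]
    · rw [if_neg h, if_neg (Ne.symm h)]
  funext l
  have h10 : (∑ k, (∑ i, (b i : ℚ_[p]) * ((C i k : ℤ) : ℚ_[p])) *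
      ((g (Pi.single k 1) l : ℚ) : ℚ_[p])) = (b l : ℚ_[p]) := by
    have h11 : ∀ k, (∑ i, (b i : ℚ_[p]) * ((C i k : ℤ) : ℚ_[p])) *
        ((g (Pi.single k 1) l : ℚ) : ℚ_[p]) =
        ∑ i, (b i : ℚ_[p]) * (((CQ i k * g (Pi.single k 1) l : ℚ)) : ℚ_[p]) := fun k => by
      rw [Finset.sum_mul]
      refine Finset.sum_congr rfl fun i _ => ?_
      rw [hCQ]
      push_cast
      ring
    rw [Finset.sum_congr rfl fun k _ => h11 k, Finset.sum_comm]
    have h12 : ∀ i, ∑ k, (b i : ℚ_[p]) * (((CQ i k * g (Pi.single k 1) l : ℚ)) : ℚ_[p]) =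
        if i = l then (b i : ℚ_[p]) else 0 := fun i => by
      rw [← Finset.mul_sum, ← Rat.cast_sum, h4 i l]
      split_ifs <;> simp
    rw [Finset.sum_congr rfl fun i _ => h12 i]
    simp
  have h13 : ∀ k, (∑ i, (b i : ℚ_[p]) * ((C i k : ℤ) : ℚ_[p])) = 0 := fun k => by
    have h14 := congrArg (fun x : ℤ_[p] => (x : ℚ_[p])) (hb k)
    simp only [PadicInt.coe_sum, PadicInt.coe_mul, PadicInt.coe_intCast, PadicInt.coe_zero] at h14
    exact h14
  rw [Finset.sum_congr rfl fun k _ => by rw [h13 k, zero_mul], Finset.sum_const_zero] at h10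
  exact PadicInt.coe_eq_zero.1 h10.symm

section

variable {F : Type} [Field F] [NumberField F] {L : Type} [Field L] [NumberField L] [Algebra F L]

/-- powers of elements near to `1` -/
theorem nr_pow {p : ℕ} {T : Set (HeightOneSpectrum (𝓞 F))} {N : ℕ} {x : L} (hx : Nr p T N x)
    (h : ℕ) : Nr p T N (x ^ h) := by
  intro v hv P hP
  have h0 := hx v hv P hP
  have hp1 : P.valuation L ((p : L) ^ N) ≤ 1 := by
    have : (p : L) ^ N = algebraMap (𝓞 L) L ((p : 𝓞 L) ^ N) := by simp
    rw [this]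
    exact P.valuation_le_one _
  have h1 : P.valuation L x ≤ 1 := by
    have : x = (x - 1) + 1 := by ring
    rw [this]
    refine (Valuation.map_add _ _ _).trans (max_le (h0.trans hp1) ?_)
    rw [map_one]
  have h2 : P.valuation L (∑ i ∈ range h, x ^ i) ≤ 1 := by
    refine Valuation.map_sum_le _ fun i _ => ?_
    rw [map_pow]
    exact pow_le_one₀ zero_le h1
  rw [← geom_sum_mul, map_mul]
  calc P.valuation L (∑ i ∈ range h, x ^ i) * P.valuation L (x - 1)
      ≤ 1 * P.valuation L (x - 1) := mul_le_mul_left h2 _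
    _ ≤ P.valuation L ((p : L) ^ N) := by rw [one_mul]; exact h0

theorem prod_zpow_sum {ι G : Type*} [CommGroup G] (x : G) (s : Finset ι) (f : ι → ℤ) :
    ∏ i ∈ s, x ^ f i = x ^ ∑ i ∈ s, f i := by
  classical
  induction s using Finset.induction_on with
  | empty => simp
  | insert i s hi ih => rw [Finset.prod_insert hi, Finset.sum_insert hi, ih, zpow_add]

/-- **OUT** -/
theorem out : S_OUT := by
  classical
  intro p _ F L _ _ _ _ _ T S _ _ n θ h hbas m hdef
  obtain ⟨hh, hθ, hind, hspan⟩ := hbas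
  obtain ⟨n', ε, hε, hεi, a, ha, hrel⟩ := hdef
  choose C hC using fun i => hspan (ε i) (hε i)
  -- products
  have key : ∀ e : Fin n' → ℤ,
      ∏ k, θ k ^ ((h : ℤ) * ∑ i, e i * C i k) = (∏ i, ε i ^ e i) ^ h := by
    intro e
    have h1 : ∀ i, (ε i ^ e i) ^ h = ∏ k, θ k ^ ((h : ℤ) * (e i * C i k)) := by
      intro i
      have h2 : (ε i ^ e i) ^ h = (ε i ^ h) ^ e i := by
        rw [← zpow_natCast, ← zpow_natCast, ← zpow_mul, ← zpow_mul, mul_comm]
      rw [h2, hC i, ← zpow_natCast, ← zpow_mul, ← Finset.prod_zpow]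
      refine Finset.prod_congr rfl fun k _ => ?_
      rw [← zpow_mul]
      refine congrArg _ ?_
      ring
    rw [← Finset.prod_pow, Finset.prod_congr rfl fun i _ => h1 i, Finset.prod_comm]
    refine Finset.prod_congr rfl fun k _ => ?_
    rw [prod_zpow_sum, Finset.mul_sum]
  -- the rows of `C` are independent
  have hrow : ∀ e : Fin n' → ℤ, (∀ k, ∑ i, e i * C i k = 0) → e = 0 := by
    intro e he
    have h1 := key e
    have h2 : ∏ k, θ k ^ ((h : ℤ) * ∑ i, e i * C i k) = 1 := by
      refine Finset.prod_eq_one fun k _ => ?_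
      rw [he k, mul_zero, zpow_zero]
    have h3 : ∏ i, ε i ^ ((h : ℤ) * e i) = 1 := by
      rw [← h2, h1, ← Finset.prod_pow]
      refine Finset.prod_congr rfl fun i _ => ?_
      rw [← zpow_natCast, ← zpow_mul, mul_comm]
    have h4 := hεi _ h3
    funext i
    have h5 := congrFun h4 i
    have h6 : (h : ℤ) * e i = 0 := h5
    rcases mul_eq_zero.1 h6 with h7 | h7
    · have : (0 : ℤ) < h := by exact_mod_cast hh
      omega
    · exact h7
  refine ⟨n, θ, h, ⟨hh, hθ, hind, hspan⟩,
    fun j k => (h : ℤ_[p]) * ∑ i, a j i * ((C i k : ℤ) : ℤ_[p]), ?_, ?_⟩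
  · rw [Fintype.linearIndependent_iff] at ha ⊢
    intro g hg
    have hh0 : (h : ℤ_[p]) ≠ 0 := Nat.cast_ne_zero.2 hh.ne'
    have hb : (fun i => ∑ j, g j * a j i) = 0 := by
      refine indep_padic p C hrow _ fun k => ?_
      have h1 := congrFun hg k
      rw [Finset.sum_apply] at h1
      have h2 : ∑ j, (g j • fun k => (h : ℤ_[p]) * ∑ i, a j i * ((C i k : ℤ) : ℤ_[p])) k =
          (h : ℤ_[p]) * ∑ i, (∑ j, g j * a j i) * ((C i k : ℤ) : ℤ_[p]) := by
        have h3 : ∀ i, (∑ j, g j * a j i) * ((C i k : ℤ) : ℤ_[p]) =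
            ∑ j, g j * (a j i * ((C i k : ℤ) : ℤ_[p])) := fun i => by
          rw [Finset.sum_mul]
          exact Finset.sum_congr rfl fun j _ => by ring
        rw [Finset.sum_congr rfl fun i _ => h3 i, Finset.sum_comm, Finset.mul_sum]
        refine Finset.sum_congr rfl fun j _ => ?_
        rw [Pi.smul_apply, smul_eq_mul, ← Finset.mul_sum]
        ring
      rw [h2] at h1
      exact (mul_eq_zero.1 h1).resolve_left hh0
    refine ha g ?_
    funext i
    rw [Finset.sum_apply]
    exact congrFun hb i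
  · intro j
    obtain ⟨m', hm1, hm2⟩ := hrel j
    refine ⟨fun t k => (h : ℤ) * ∑ i, m' t i * C i k, fun k => ?_, fun N => ?_⟩
    · have h1 : Tendsto (fun t => (h : ℤ_[p]) *
          ∑ i, ((m' t i : ℤ) : ℤ_[p]) * ((C i k : ℤ) : ℤ_[p])) atTop
          (𝓝 ((h : ℤ_[p]) * ∑ i, a j i * ((C i k : ℤ) : ℤ_[p]))) :=
        tendsto_const_nhds.mul (tendsto_finsetSum _ fun i _ => (hm1 i).mul tendsto_const_nhds)
      refine h1.congr fun t => ?_
      push_cast
      rfl
    · filter_upwards [hm2 N] with t ht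
      rw [key, Units.val_pow_eq_pow_val]
      exact nr_pow ht h

end

end Pool.Agent.Q94.LS
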